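import Mathlib

/-!
# A 4-regular Ramanujan graph without a connectivity code of size 16

The graph is the square of the cycle of length 16.
-/

set_option autoImplicit false

namespace Pool.Agent.Results.MP_7d4bc7_co.SquareOfCycle

open Finset

universe u

/-- A connectivity code for `H`: a family of edge sets of spanning subgraphs of `H` such that the
symmetric difference of any two distinct members is (the edge set of) a connected graph on the full
vertex set. -/
def IsConnectivityCode {V : Type u} [DecidableEq V] (H : SimpleGraph V)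
    (C : Finset (Finset (Sym2 V))) : Prop :=
  (∀ F ∈ C, (F : Set (Sym2 V)) ⊆ H.edgeSet) ∧
    ∀ F ∈ C, ∀ F' ∈ C, F ≠ F' →
      (SimpleGraph.fromEdgeSet ((symmDiff F F' : Finset (Sym2 V)) : Set (Sym2 V))).Connected

/-- A `d`-regular graph is Ramanujan if all nontrivial eigenvalues have absolute value at most
`2 √(d - 1)`. The eigenvalues other than `λ₁ = d` (counted with multiplicity) are those having an
eigenvector whose coordinates sum to zero; `-d` is also trivial if the graph is bipartite. -/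
def IsRamanujan {V : Type u} [Fintype V] [DecidableEq V] (H : SimpleGraph V)
    [DecidableRel H.Adj] (d : ℕ) : Prop :=
  H.IsRegularOfDegree d ∧ ∀ (μ : ℝ) (f : V → ℝ), f ≠ 0 → ∑ v, f v = 0 →
    (H.adjMatrix ℝ).mulVec f = μ • f →
      |μ| ≤ 2 * Real.sqrt ((d : ℝ) - 1) ∨ (H.Colorable 2 ∧ μ = -(d : ℝ))

/-- The square of the cycle of length 16. -/
def H : SimpleGraph (Fin 16) where
  Adj a b := b = a + 1 ∨ b = a + 2 ∨ b = a - 1 ∨ b = a - 2
  symm := ⟨by decide +kernel⟩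
  loopless := ⟨by decide +kernel⟩

instance : DecidableRel H.Adj := fun a b =>
  inferInstanceAs (Decidable (b = a + 1 ∨ b = a + 2 ∨ b = a - 1 ∨ b = a - 2))

/-! ### The Ramanujan property -/

/-- Every eigenvalue with an eigenvector of sum zero is a root of an explicit polynomial. -/
theorem core (F : Fin 16 → ℝ) (μ : ℝ)
    (h : ∀ k, F (k + 1) + F (k + 2) + F (k - 1) + F (k - 2) = μ * F k)
    (hsum : ∑ k, F k = 0) :
    (μ * (μ + 2) * (μ ^ 2 - 2) * (μ ^ 4 - 8 * μ ^ 2 - 8 * μ - 2)) * F 0 = 0 := by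
  have h0 : F 1 + F 2 + F 15 + F 14 = μ * F 0 := h 0
  have h1 : F 2 + F 3 + F 0 + F 15 = μ * F 1 := h 1
  have h2 : F 3 + F 4 + F 1 + F 0 = μ * F 2 := h 2
  have h3 : F 4 + F 5 + F 2 + F 1 = μ * F 3 := h 3
  have h4 : F 5 + F 6 + F 3 + F 2 = μ * F 4 := h 4
  have h5 : F 6 + F 7 + F 4 + F 3 = μ * F 5 := h 5
  have h6 : F 7 + F 8 + F 5 + F 4 = μ * F 6 := h 6
  have h7 : F 8 + F 9 + F 6 + F 5 = μ * F 7 := h 7
  have h8 : F 9 + F 10 + F 7 + F 6 = μ * F 8 := h 8
  have h9 : F 10 + F 11 + F 8 + F 7 = μ * F 9 := h 9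
  have h10 : F 11 + F 12 + F 9 + F 8 = μ * F 10 := h 10
  have h11 : F 12 + F 13 + F 10 + F 9 = μ * F 11 := h 11
  have h12 : F 13 + F 14 + F 11 + F 10 = μ * F 12 := h 12
  have h13 : F 14 + F 15 + F 12 + F 11 = μ * F 13 := h 13
  have h14 : F 15 + F 0 + F 13 + F 12 = μ * F 14 := h 14
  have h15 : F 0 + F 1 + F 14 + F 13 = μ * F 15 := h 15
  have hs : F 0 + F 1 + F 2 + F 3 + F 4 + F 5 + F 6 + F 7 + F 8 + F 9 + F 10 + F 11 + F 12 +
      F 13 + F 14 + F 15 = 0 := by
    rw [← hsum]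
    simp only [Fin.sum_univ_succ, Fin.sum_univ_zero]
    simp only [Fin.succ_zero_eq_one, Fin.isValue, add_zero]
    ring!
  linear_combination (-((494) + (130) * μ + (44) * μ ^ 2 + (6) * μ ^ 3 + (-14) * μ ^ 4 + (-6) * μ ^ 5 + (2) * μ ^ 6 + (1) * μ ^ 7)) * h0 +
      (-((493) + (118) * μ + (18) * μ ^ 2 + (-2) * μ ^ 3 + (3) * μ ^ 4 + (4) * μ ^ 5 + (1) * μ ^ 6)) * h1 +
      (-((494) + (125) * μ + (29) * μ ^ 2 + (2) * μ ^ 3 + (1) * μ ^ 4 + (3) * μ ^ 5 + (1) * μ ^ 6)) * h2 +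
      (-((493) + (120) * μ + (27) * μ ^ 2 + (12) * μ ^ 3 + (8) * μ ^ 4 + (2) * μ ^ 5)) * h3 +
      (-((494) + (126) * μ + (36) * μ ^ 2 + (13) * μ ^ 3 + (5) * μ ^ 4 + (1) * μ ^ 5)) * h4 +
      (-((493) + (124) * μ + (37) * μ ^ 2 + (14) * μ ^ 3 + (3) * μ ^ 4)) * h5 +
      (-((494) + (125) * μ + (33) * μ ^ 2 + (8) * μ ^ 3 + (1) * μ ^ 4)) * h6 +
      (-((493) + (122) * μ + (28) * μ ^ 2 + (4) * μ ^ 3)) * h7 +
      (-((494) + (122) * μ + (24) * μ ^ 2 + (2) * μ ^ 3)) * h8 +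
      (-((493) + (122) * μ + (28) * μ ^ 2 + (4) * μ ^ 3)) * h9 +
      (-((494) + (125) * μ + (33) * μ ^ 2 + (8) * μ ^ 3 + (1) * μ ^ 4)) * h10 +
      (-((493) + (124) * μ + (37) * μ ^ 2 + (14) * μ ^ 3 + (3) * μ ^ 4)) * h11 +
      (-((494) + (126) * μ + (36) * μ ^ 2 + (13) * μ ^ 3 + (5) * μ ^ 4 + (1) * μ ^ 5)) * h12 +
      (-((493) + (120) * μ + (27) * μ ^ 2 + (12) * μ ^ 3 + (8) * μ ^ 4 + (2) * μ ^ 5)) * h13 +
      (-((494) + (125) * μ + (29) * μ ^ 2 + (2) * μ ^ 3 + (1) * μ ^ 4 + (3) * μ ^ 5 + (1) * μ ^ 6)) * h14 +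
      (-((493) + (118) * μ + (18) * μ ^ 2 + (-2) * μ ^ 3 + (3) * μ ^ 4 + (4) * μ ^ 5 + (1) * μ ^ 6)) * h15 + 1974 * hs

theorem root_bound (μ : ℝ)
    (h : μ * (μ + 2) * (μ ^ 2 - 2) * (μ ^ 4 - 8 * μ ^ 2 - 8 * μ - 2) = 0) : μ ^ 2 ≤ 12 := by
  rcases mul_eq_zero.1 h with h | h
  · rcases mul_eq_zero.1 h with h | h
    · rcases mul_eq_zero.1 h with h | h
      · rw [h]; norm_num
      · have : μ = -2 := by linarith
        rw [this]; norm_num
    · linarith
  · by_contra hcon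
    push Not at hcon
    nlinarith [sq_nonneg (μ - 1), sq_nonneg (μ ^ 2 - 12), sq_nonneg (μ - 2), sq_nonneg (μ + 1)]

theorem neighbor_eq : ∀ k : Fin 16, H.neighborFinset k = {k + 1, k + 2, k - 1, k - 2} := by
  decide +kernel

theorem regular : H.IsRegularOfDegree 4 := by
  intro v
  rw [← SimpleGraph.card_neighborFinset_eq_degree, neighbor_eq]
  revert v
  decide +kernel

theorem distinct4 : ∀ k : Fin 16, k + 1 ∉ ({k + 2, k - 1, k - 2} : Finset (Fin 16)) ∧
    k + 2 ∉ ({k - 1, k - 2} : Finset (Fin 16)) ∧ k - 1 ∉ ({k - 2} : Finset (Fin 16)) := by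
  decide +kernel

theorem ramanujan : IsRamanujan H 4 := by
  refine ⟨regular, fun μ f hf hsum hA => Or.inl ?_⟩
  have heq : ∀ k, f (k + 1) + f (k + 2) + f (k - 1) + f (k - 2) = μ * f k := by
    intro k
    have h1 := congrFun hA k
    rw [SimpleGraph.adjMatrix_mulVec_apply, neighbor_eq] at h1
    obtain ⟨d1, d2, d3⟩ := distinct4 k
    rw [Finset.sum_insert d1, Finset.sum_insert d2, Finset.sum_insert d3,
      Finset.sum_singleton] at h1
    rw [Pi.smul_apply, smul_eq_mul] at h1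
    linarith
  obtain ⟨i, hi⟩ : ∃ i, f i ≠ 0 := by
    by_contra hcon
    push Not at hcon
    exact hf (funext hcon)
  have hμ : μ ^ 2 ≤ 12 := by
    apply root_bound
    have h2 := core (fun k => f (i + k)) μ ?_ ?_
    · have h3 : (fun k => f (i + k)) 0 ≠ 0 := by
        simpa using hi
      exact (mul_eq_zero.1 h2).resolve_right h3
    · intro k
      have := heq (i + k)
      rw [← this]
      have e1 : i + (k + 1) = i + k + 1 := by rw [add_assoc]
      have e2 : i + (k + 2) = i + k + 2 := by rw [add_assoc]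
      have e3 : i + (k - 1) = i + k - 1 := by rw [add_sub_assoc]
      have e4 : i + (k - 2) = i + k - 2 := by rw [add_sub_assoc]
      rw [e1, e2, e3, e4]
    · rw [← hsum]
      exact Fintype.sum_equiv (Equiv.addLeft i) _ _ (fun k => rfl)
  have h12 : (2 * Real.sqrt (((4 : ℕ) : ℝ) - 1)) ^ 2 = 12 := by
    rw [mul_pow, Real.sq_sqrt (by norm_num)]
    norm_num
  apply abs_le_of_sq_le_sq
  · rw [h12]
    exact hμ
  · positivity

/-! ### The bound on connectivity codes -/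

/-- The three edges crossing between `i - 1` and `i`. -/
def L (i : Fin 16) : Finset (Sym2 (Fin 16)) := {s(i - 1, i), s(i - 1, i + 1), s(i - 2, i)}

theorem card_L : ∀ i : Fin 16, (L i).card = 3 := by
  decide +kernel

/-- An edge of `H` leaving the interval `[i, j)` lies in `L i ∪ L j`. -/
theorem boundary : ∀ i j a b : Fin 16, H.Adj a b → (a - i).val < (j - i).val →
    ¬ (b - i).val < (j - i).val → s(a, b) ∈ L i ∨ s(a, b) ∈ L j := by
  decide +kernel

theorem agree_once (C : Finset (Finset (Sym2 (Fin 16)))) (hC : IsConnectivityCode H C)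
    (F F' : Finset (Sym2 (Fin 16))) (hF : F ∈ C) (hF' : F' ∈ C) (hne : F ≠ F') (i j : Fin 16)
    (hij : i ≠ j) (hi : F ∩ L i = F' ∩ L i) (hj : F ∩ L j = F' ∩ L j) : False := by
  have hconn := hC.2 F hF F' hF' hne
  obtain ⟨p⟩ := hconn.preconnected i j
  have hji : 0 < (j - i).val := by
    rw [Nat.pos_iff_ne_zero]
    intro h
    apply hij
    have h0 : j - i = 0 := Fin.ext h
    exact (sub_eq_zero.1 h0).symm
  obtain ⟨d, -, hd1, hd2⟩ := p.exists_boundary_dart {a | (a - i).val < (j - i).val}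
    (by simpa using hji) (by simp)
  have hadj := (SimpleGraph.fromEdgeSet_adj _).1 d.adj
  have hmem : s(d.fst, d.snd) ∈ symmDiff F F' := hadj.1
  have hH : H.Adj d.fst d.snd := by
    rw [← SimpleGraph.mem_edgeSet]
    rw [Finset.mem_symmDiff] at hmem
    rcases hmem with h | h
    · exact hC.1 F hF h.1
    · exact hC.1 F' hF' h.1
  have key : ∀ k, F ∩ L k = F' ∩ L k → s(d.fst, d.snd) ∉ L k := by
    intro k hk hmk
    rw [Finset.mem_symmDiff] at hmem
    rcases hmem with h | h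
    · have : s(d.fst, d.snd) ∈ F' ∩ L k := hk ▸ Finset.mem_inter.2 ⟨h.1, hmk⟩
      exact h.2 (Finset.mem_inter.1 this).1
    · have : s(d.fst, d.snd) ∈ F ∩ L k := hk ▸ Finset.mem_inter.2 ⟨h.1, hmk⟩
      exact h.2 (Finset.mem_inter.1 this).1
  rcases boundary i j d.fst d.snd hH hd1 hd2 with h | h
  · exact key i hi h
  · exact key j hj h

/-- Among 16 sets many pairs agree on a set of size 3. -/
theorem many_agree (C : Finset (Finset (Sym2 (Fin 16)))) (hC : C.card = 16)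
    (K : Finset (Sym2 (Fin 16))) (hK : K.card = 3) :
    16 ≤ (C.offDiag.filter fun p => p.1 ∩ K = p.2 ∩ K).card := by
  classical
  have h1 : ((C ×ˢ C).filter fun p => p.1 ∩ K = p.2 ∩ K).card =
      ∑ q ∈ K.powerset, (C.filter fun F => F ∩ K = q).card ^ 2 := by
    rw [Finset.card_eq_sum_card_fiberwise (f := fun p => p.1 ∩ K) (t := K.powerset)]
    · apply Finset.sum_congr rfl
      intro q _
      rw [sq, ← Finset.card_product]
      congr 1
      ext ⟨F, F'⟩
      simp only [Finset.mem_filter, Finset.mem_product]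
      constructor
      · rintro ⟨⟨⟨h1, h2⟩, h3⟩, h4⟩
        exact ⟨⟨h1, h4⟩, h2, h3 ▸ h4⟩
      · rintro ⟨⟨h1, h4⟩, h2, h3⟩
        exact ⟨⟨⟨h1, h2⟩, h4.trans h3.symm⟩, h4⟩
    · intro p _
      exact Finset.mem_powerset.2 Finset.inter_subset_right
  have h2 : ∑ q ∈ K.powerset, (C.filter fun F => F ∩ K = q).card = 16 := by
    refine Eq.trans (Eq.symm ?_) hC
    apply Finset.card_eq_sum_card_fiberwise
    intro p _
    exact Finset.mem_powerset.2 Finset.inter_subset_right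
  have h3 := sq_sum_le_card_mul_sum_sq (s := K.powerset)
    (f := fun q => (((C.filter fun F => F ∩ K = q).card : ℕ) : ℤ))
  rw [Finset.card_powerset, hK] at h3
  have h2' : ∑ q ∈ K.powerset, (((C.filter fun F => F ∩ K = q).card : ℕ) : ℤ) = 16 := by
    exact_mod_cast h2
  rw [h2'] at h3
  have h4 : 32 ≤ ∑ q ∈ K.powerset, (C.filter fun F => F ∩ K = q).card ^ 2 := by
    have : (32 : ℤ) ≤ ∑ q ∈ K.powerset, (((C.filter fun F => F ∩ K = q).card : ℕ) : ℤ) ^ 2 := by
      norm_num at h3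
      linarith
    exact_mod_cast this
  rw [← h1] at h4
  have h5 : (C ×ˢ C).filter (fun p => p.1 ∩ K = p.2 ∩ K) =
      (C.offDiag.filter fun p => p.1 ∩ K = p.2 ∩ K) ∪ C.diag := by
    ext ⟨F, F'⟩
    simp only [Finset.mem_filter, Finset.mem_product, Finset.mem_union, Finset.mem_offDiag,
      Finset.mem_diag]
    constructor
    · rintro ⟨⟨h1, h2⟩, h3⟩
      by_cases h : F = F'
      · exact Or.inr ⟨h1, h⟩
      · exact Or.inl ⟨⟨h1, h2, h⟩, h3⟩
    · rintro (⟨⟨h1, h2, -⟩, h3⟩ | ⟨h1, rfl⟩)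
      · exact ⟨⟨h1, h2⟩, h3⟩
      · exact ⟨⟨h1, h1⟩, rfl⟩
  have h6 := Finset.card_union_le (C.offDiag.filter fun p => p.1 ∩ K = p.2 ∩ K) C.diag
  rw [← h5, Finset.diag_card, hC] at h6
  omega

theorem code_lt (C : Finset (Finset (Sym2 (Fin 16)))) (hC : IsConnectivityCode H C) :
    C.card < 16 := by
  classical
  by_contra hcon
  push Not at hcon
  obtain ⟨D, hDC, hD⟩ := Finset.exists_subset_card_eq hcon
  have hcode : IsConnectivityCode H D :=
    ⟨fun F hF => hC.1 F (hDC hF), fun F hF F' hF' => hC.2 F (hDC hF) F' (hDC hF')⟩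
  set A : Fin 16 → Finset (Finset (Sym2 (Fin 16)) × Finset (Sym2 (Fin 16))) :=
    fun i => D.offDiag.filter fun p => p.1 ∩ L i = p.2 ∩ L i with hA
  have h1 : ∀ i, 16 ≤ (A i).card := fun i => many_agree D hD (L i) (card_L i)
  have h2 : (univ.biUnion A).card = ∑ i, (A i).card := by
    apply Finset.card_biUnion
    intro i _ j _ hij
    rw [Function.onFun, Finset.disjoint_left]
    rintro ⟨F, F'⟩ h1 h2
    simp only [hA, Finset.mem_filter, Finset.mem_offDiag] at h1 h2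
    exact agree_once D hcode F F' h1.1.1 h1.1.2.1 h1.1.2.2 i j hij h1.2 h2.2
  have h3 : univ.biUnion A ⊆ D.offDiag := by
    intro p hp
    rw [Finset.mem_biUnion] at hp
    obtain ⟨i, -, hi⟩ := hp
    exact (Finset.mem_filter.1 hi).1
  have h4 := Finset.card_le_card h3
  rw [h2, Finset.offDiag_card, hD] at h4
  have h5 : ∑ _i : Fin 16, 16 ≤ ∑ i, (A i).card := Finset.sum_le_sum fun i _ => h1 i
  simp only [Finset.sum_const, Finset.card_univ, Fintype.card_fin, smul_eq_mul] at h5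
  omega

/-- **MP_7d4bc7_co, negated form.** There are `d ≥ 4` and a Ramanujan `d`-regular graph `H` all of
whose connectivity codes have fewer than `2 ^ d` members. -/
theorem result : ∃ d : ℕ, 4 ≤ d ∧ ∃ (H : SimpleGraph (Fin 16)) (_ : DecidableRel H.Adj),
    IsRamanujan H d ∧ ∀ C : Finset (Finset (Sym2 (Fin 16))), IsConnectivityCode H C →
      C.card < 2 ^ d :=
  ⟨4, le_rfl, H, inferInstance, ramanujan, fun C hC => code_lt C hC⟩

end Pool.Agent.Results.MP_7d4bc7_co.SquareOfCycle
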